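import Pool.Agent.Helper74.DI.StM

/-! Project DI, module LPB (the second loop), by helper57. -/

set_option autoImplicit false

namespace Pool.Agent.Helper57.DI

open Pool.Agent.Helper74 Pool.Agent.Helper74.DI

private theorem up_self (r : Bool) (v : Bool → ℕ) (x : ℕ) : up r x v r = x := by simp [up]

private theorem up_not (r : Bool) (v : Bool → ℕ) (x : ℕ) : up (!r) x v r = v r := by
  cases r <;> simp [up]

private theorem up_up (r : Bool) (v : Bool → ℕ) (x y : ℕ) : up r x (up r y v) = up r x v := by
  funext r'
  by_cases h : r' = r <;> simp [up, h]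

private theorem up_id (r : Bool) (v : Bool → ℕ) : up r (v r + 0) v = v := by
  funext r'
  by_cases h : r' = r <;> simp [up, h]

theorem hLPB (hSTD : StSTD) : StLPB := by
  intro w x s e o j μ hμ t
  induction t with
  | zero =>
    intro v hx hn
    have hv : ∀ r, v r ≤ μ := by
      intro r
      by_cases h : r = x
      · rw [h]; exact hx
      · have h2 : r = !x := by cases r <;> cases x <;> simp_all
        rw [h2]; omega
    have h1 := (hSTD w x s e o j v 0 μ hv (Nat.zero_le _) hμ).1 rfl
    rw [up_id]
    exact rch_step _ _ _ h1
  | succ t ih =>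
    intro v hx hn
    have hv : ∀ r, v r ≤ μ := by
      intro r
      by_cases h : r = x
      · rw [h]; exact hx
      · have h2 : r = !x := by cases r <;> cases x <;> simp_all
        rw [h2]; omega
    have h1 := (hSTD w x s e o j v (t + 1) μ hv (by omega) hμ).2 (by omega) (by omega)
    rw [Nat.add_sub_cancel] at h1
    have h2 := ih (up (!x) (v (!x) + 1) v) (by rw [up_not]; exact hx)
      (by rw [up_self]; omega)
    rw [up_up, up_self] at h2
    have h3 : v (!x) + 1 + t = v (!x) + (t + 1) := by omega
    rw [h3] at h2
    exact rch_head _ _ _ _ h1 h2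

end Pool.Agent.Helper57.DI
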